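import Pool.Agent.Q62.Bass.Kap

/-!
# Projective modules over group rings in characteristic zero and finite groups

Let `R` be a commutative domain of characteristic zero and `G` a torsion-free group which is locally
embeddable into finite groups (for example residually finite), or in which the centralisers of the
nontrivial elements of finitely generated subgroups are residually finite.  Every finitely generated
projective module over `R[G]` has the Hattori-Stallings rank of a free module, as predicted by
the bijectivity of `K₀(R) → K₀(R[G])`; in particular `R[G]` has no idempotents except `0` and `1`.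
-/

set_option autoImplicit false

namespace Pool.Agent.Results.MP_1a2884_al.DetectedIdempotents

universe u v

/-- `G` is torsion-free. -/
def TorsionFree (G : Type v) [Group G] : Prop := ∀ (g : G) (n : ℕ), 0 < n → g ^ n = 1 → g = 1

/-- For every finite subset `W` of `H` and every `m > 0` there is a map `f` from `H` to a finite
group with `f (x y) = f x f y` for `x, y ∈ W` and `f h ^ m ≠ 1`. -/
def LocallyDetected {H : Type v} [Group H] (h : H) : Prop :=
  ∀ (W : Finset H) (m : ℕ), 0 < m → ∃ (Q : Type v) (_ : Group Q) (_ : Finite Q) (f : H → Q),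
    (∀ x ∈ W, ∀ y ∈ W, f (x * y) = f x * f y) ∧ f h ^ m ≠ 1

/-- For every `m > 0` some subgroup of finite index of the centraliser of `h` does not contain
`h ^ m`. -/
def CentrallyDetected {H : Type v} [Group H] (h : H) : Prop :=
  ∀ m : ℕ, 0 < m → ∃ N : Subgroup (Subgroup.centralizer ({h} : Set H)), N.FiniteIndex ∧
    ∀ z ∈ N, (z : H) ≠ h ^ m

/-- Some homomorphism maps `h` to a locally detected or to a centrally detected element. -/
def Detected {H : Type v} [Group H] (h : H) : Prop :=
  ∃ (H' : Type v) (_ : Group H') (φ : H →* H'), LocallyDetected (φ h) ∨ CentrallyDetected (φ h)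

/-- `G` is locally embeddable into finite groups. -/
def LEF (G : Type v) [Group G] : Prop :=
  ∀ W : Finset G, ∃ (Q : Type v) (_ : Group Q) (_ : Finite Q) (f : G → Q),
    Set.InjOn f W ∧ ∀ x ∈ W, ∀ y ∈ W, f (x * y) = f x * f y

/-- `G` is residually finite. -/
def ResFin (G : Type v) [Group G] : Prop :=
  ∀ g : G, g ≠ 1 → ∃ N : Subgroup G, N.FiniteIndex ∧ g ∉ N

/-- `G` is locally embeddable into finite groups (for example residually finite); or in each
finitely generated subgroup the centralisers of all elements `≠ 1` are residually finite, or all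
elements `≠ 1` are detected. -/
def Good (G : Type v) [Group G] : Prop :=
  LEF G ∨ ResFin G ∨
  (∀ H : Subgroup G, H.FG → ∀ h : H, h ≠ 1 → ResFin (Subgroup.centralizer ({h} : Set H))) ∨
  (∀ H : Subgroup G, H.FG → ∀ h : H, h ≠ 1 → Detected h)

/-- The Hattori-Stallings rank at (the class of) `g` of the idempotent matrix `A`. -/
noncomputable def rank {R : Type u} [CommRing R] {G : Type v} [Group G] {n : ℕ}
    (A : Matrix (Fin n) (Fin n) (MonoidAlgebra R G)) (g : G) : R :=
  ∑ i : Fin n, ∑ᶠ (h : G) (_ : IsConj h g), (A i i).coeff h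

theorem good_detected {G : Type v} [Group G] (hG : Good G) :
    ∀ H : Subgroup G, H.FG → ∀ h : H, (¬ ∃ n : ℕ, 0 < n ∧ h ^ n = 1) → Detected h := by
  intro H hH h hh
  have h1 : h ≠ 1 := fun h0 => hh ⟨1, one_pos, by rw [h0, one_pow]⟩
  rcases hG with hG | hG | hG | hG
  · exact ⟨H, inferInstance, MonoidHom.id H, Or.inl (Q62.Bass.LEF.detected
      (Q62.Bass.LEF.subgroup hG H) hh)⟩
  · exact ⟨H, inferInstance, MonoidHom.id H, Or.inl (Q62.Bass.LEF.detected
      (Q62.Bass.LEF.subgroup (Q62.Bass.ResFin.lef hG) H) hh)⟩
  · exact ⟨H, inferInstance, MonoidHom.id H, Or.inr (Q62.Bass.ResFin.detected (hG H hH h h1) hh)⟩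
  · exact hG H hH h h1

/-- (1) Let `R` be a commutative domain of characteristic zero and `G` a torsion-free good group.
For every idempotent `n × n` matrix `A` over `R[G]` there is a natural number `k ≤ n` such that the
Hattori-Stallings rank of `A` is `k` at `1` and `0` at all other elements; if `k = 0`, then `A = 0`,
and if `k = n`, then `A = 1`.  If `m` non-zero idempotent matrices have sum `1`, then `m ≤ n`.
The only idempotents of `R[G]` are `0` and `1`.
(2) Let `K` be a field of characteristic zero and `G` any group which is locally embeddable into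
finite groups.  For every idempotent matrix `A` over `K[G]` the trace at `1` is a
rational number `r`, `0 ≤ r ≤ n`, `A = 0` if `r = 0`, and for each prime `p` which divides the
denominator of `r` there is an element of order `p` in `G`. -/
theorem result :
    (∀ (R : Type u) [CommRing R] [IsDomain R] [CharZero R] (G : Type v) [Group G],
      TorsionFree G → Good G →
      (∀ (n : ℕ) (A : Matrix (Fin n) (Fin n) (MonoidAlgebra R G)), A * A = A →
        ∃ k : ℕ, k ≤ n ∧ rank A 1 = k ∧ (∀ g : G, g ≠ 1 → rank A g = 0) ∧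
          (k = 0 → A = 0) ∧ (k = n → A = 1)) ∧
      (∀ (n m : ℕ) (E : Fin m → Matrix (Fin n) (Fin n) (MonoidAlgebra R G)),
        (∀ i, E i * E i = E i) → (∀ i, E i ≠ 0) → ∑ i, E i = 1 → m ≤ n) ∧
      (∀ e : MonoidAlgebra R G, e * e = e → e = 0 ∨ e = 1)) ∧
    (∀ (K : Type u) [Field K] [CharZero K] (G : Type v) [Group G], LEF G →
      ∀ (n : ℕ) (A : Matrix (Fin n) (Fin n) (MonoidAlgebra K G)), A * A = A →
        ∃ r : ℚ, ∑ i, (A i i).coeff 1 = (r : K) ∧ 0 ≤ r ∧ r ≤ n ∧ (r = 0 → A = 0) ∧
          ∀ p : ℕ, p.Prime → p ∣ r.den → ∃ g : G, orderOf g = p) := by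
  classical
  refine ⟨?_, ?_⟩
  · intro R _ _ _ G _ hT hG
    have hinf : ∀ g : G, g ≠ 1 → ¬ IsUnit ((orderOf g : ℕ) : R) := by
      intro g hg
      have h0 : orderOf g = 0 := by
        rw [orderOf_eq_zero_iff']
        intro m hm h1
        exact hg (hT g m hm h1)
      rw [h0, Nat.cast_zero]
      exact not_isUnit_zero
    have hB : ∀ (n : ℕ) (g : G), g ≠ 1 → ∀ (A : Matrix (Fin n) (Fin n) (MonoidAlgebra R G)),
        A * A = A → H26R2.Bass.tau A g = 0 := fun n g hg A hA =>
      Q62.Bass.bass_of_detected (good_detected hG) A hA g (hinf g hg)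
    have hr1 : ∀ (n : ℕ) (A : Matrix (Fin n) (Fin n) (MonoidAlgebra R G)),
        rank A 1 = ∑ i, (A i i).coeff 1 := by
      intro n A
      refine Finset.sum_congr rfl (fun i _ => ?_)
      rw [finsum_eq_single _ (1 : G)]
      · rw [finsum_eq_if, if_pos (IsConj.refl _)]
      · intro x hx
        rw [finsum_eq_if, if_neg]
        intro h1
        exact hx (isConj_one_right.1 h1.symm)
    have h1 : ∀ (n : ℕ) (A : Matrix (Fin n) (Fin n) (MonoidAlgebra R G)), A * A = A →
        ∃ k : ℕ, k ≤ n ∧ rank A 1 = k ∧ (∀ g : G, g ≠ 1 → rank A g = 0) ∧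
          (k = 0 → A = 0) ∧ (k = n → A = 1) := by
      intro n A hA
      obtain ⟨k, hk, hk1, hk2, hk3⟩ := Q62.Bass.integral_trace (hB n) A hA
      exact ⟨k, hk, by rw [hr1, hk1], fun g hg => hB n g hg A hA, hk2, hk3⟩
    refine ⟨h1, ?_, ?_⟩
    · intro n m E hE hne hsum
      choose k hk hk1 _ hk2 _ using fun i => h1 n (E i) (hE i)
      have h2 : ((∑ i, k i : ℕ) : R) = (n : R) := by
        rw [Nat.cast_sum]
        have h3 : ∀ i, (k i : R) = ∑ j, (E i j j).coeff 1 := fun i => by rw [← hk1, hr1]
        rw [Finset.sum_congr rfl (fun i _ => h3 i), Finset.sum_comm]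
        have h4 : ∀ j : Fin n, ∑ i, (E i j j).coeff 1 = (1 : R) := by
          intro j
          have h5 : (∑ i, E i) j j = 1 := by rw [hsum, Matrix.one_apply_eq]
          rw [Matrix.sum_apply] at h5
          rw [← Finset.sum_apply', ← MonoidAlgebra.coeff_sum, h5, MonoidAlgebra.coeff_one_one]
        rw [Finset.sum_congr rfl (fun j _ => h4 j)]
        simp
      have h3 : ∑ i, k i = n := by exact_mod_cast h2
      have h4 : ∀ i, 1 ≤ k i := by
        intro i
        rcases Nat.eq_zero_or_pos (k i) with h | h
        · exact absurd (hk2 i h) (hne i)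
        · exact h
      calc m = ∑ _i : Fin m, 1 := by simp
        _ ≤ ∑ i, k i := Finset.sum_le_sum (fun i _ => h4 i)
        _ = n := h3
    · intro e he
      let A : Matrix (Fin 1) (Fin 1) (MonoidAlgebra R G) := Matrix.of fun _ _ => e
      have hA : A * A = A := by
        ext1 i j
        simp [A, Matrix.mul_apply, he]
      obtain ⟨k, hk, -, -, hk2, hk3⟩ := h1 1 A hA
      have h5 : k = 0 ∨ k = 1 := by omega
      rcases h5 with h5 | h5
      · left
        exact congrFun (congrFun (hk2 h5) 0) 0
      · right
        have h6 := congrFun (congrFun (hk3 h5) 0) 0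
        rw [Matrix.one_apply_eq] at h6
        exact h6
  · intro K _ _ G _ hG n A hA
    obtain ⟨r, h1, h2, h3, h4, h5⟩ := Y84.PT.tau_rat hG hA
    exact ⟨r, h1, h2, by simpa using h3, h4, h5⟩

end Pool.Agent.Results.MP_1a2884_al.DetectedIdempotents
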