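import Pool.Agent.H26R2.DF.Main
import Pool.Agent.H26R2.IdemLI.NoDiv
import Pool.Agent.H26R2.IdemLI.Lin
import Pool.Agent.Q202.DetTrans

/-!
# Normal subgroups which detect projective modules over group algebras

Let `K` be a field of characteristic zero and `G` a torsion-free group. If `K₀(K) → K₀(K[G])` is
bijective, then a finitely generated projective `K[G]`-module `P ≠ 0` has a nonzero image
`K[G/N] ⊗ P`, for every normal subgroup `N` of `G`; in other words `Det K N` holds: an idempotent
matrix over `K[G]` which vanishes over `K[G/N]` is zero. We prove `Det K N` for large classes of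
normal subgroups of arbitrary groups, over fields of any characteristic if `N` is locally indicable,
and draw consequences for Kaplansky's idempotent conjecture.
-/

set_option autoImplicit false

namespace Pool.Agent.Results.MP_1a2884_al.DetectingSubgroups

open Pool.Agent.H26R2.IdemLI (Det LocInd)
open Pool.Agent.H26R2.Bass (Good GoodSeries)

universe u v

/-- All idempotents of the group algebra `K[G]` are `0` or `1`. -/
def Idem (K : Type u) [Field K] (G : Type v) [Group G] : Prop :=
  ∀ a : MonoidAlgebra K G, a * a = a → a = 0 ∨ a = 1

/-- `N` has no elements of finite order except `1`. -/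
def TorsionFree {G : Type v} [Group G] (N : Subgroup G) : Prop :=
  ∀ x ∈ N, ∀ n : ℕ, 0 < n → x ^ n = 1 → x = 1

/-- Let `K` be a field. `Det K N` says that the idempotent matrices over `K[G]` which vanish over
`K[G/N]` vanish.

(1) Let `N` be a normal subgroup of `G` such that every finitely generated subgroup `H` of `G` has a
normal subgroup `M ≤ N ∩ H` with `Det K M`, and `M = N ∩ H` or `K` has characteristic zero and all
elements `h` of `N ∩ H` not in `M` are good in `H` (some homomorphism from the centraliser of `h` to
the additive group of `K` does not vanish at `h`, or `h` is not almost divisible). Then `Det K N`.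
(2) `Det K N` if every nontrivial finitely generated subgroup of `N` has a nonzero homomorphism to the
additive group of `K`; `K` of any characteristic.
(3) `Det K N` if `K` has characteristic zero, and `N` is torsion-free with a finite series of normal
subgroups of `G` with good factors.
(4) `Det` is closed under extensions, directed unions, and descending chains with trivial
intersection.
(5) If `Det K N` and the idempotent conjecture holds for `K` and `G/N`, then it holds for `K` and `G`.
(6) If the idempotent conjecture holds for `K` and all finitely generated torsion-free groups without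
nontrivial isolated normal subgroups `L` with `Det K L`, then it holds for `K` and all torsion-free
groups.
(7) `Det K N` if for every normal subgroup `M < N` of `G` there is a normal subgroup `L` of `G` with
`M < L ≤ N` and `Det K (L/M)` (transfinite ascending series).
(8) `Det K N` if for every normal subgroup `M ≤ N` of `G` with `M ≠ 1` there is a normal subgroup
`L < M` of `G` with `Det K (M/L)` (transfinite descending series). -/
theorem result (K : Type u) [Field K] :
    (∀ (G : Type v) [Group G] (N : Subgroup G) [N.Normal],
      (∀ H : Subgroup G, H.FG → ∃ (M : Subgroup H) (_ : M.Normal), M ≤ N.subgroupOf H ∧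
        Det K M ∧ (M = N.subgroupOf H ∨
          (CharZero K ∧ ∀ g : H, (g : G) ∈ N → g ∉ M → Good K g))) → Det K N) ∧
    (∀ (G : Type v) [Group G] (N : Subgroup G) [N.Normal], LocInd K N → Det K N) ∧
    (CharZero K → ∀ (G : Type v) [Group G] (N : Subgroup G) [N.Normal],
      TorsionFree N → GoodSeries K N → Det K N) ∧
    ((∀ (G : Type v) [Group G] (M N : Subgroup G) [M.Normal] [N.Normal], M ≤ N → Det K M →
        Det K (N.map (QuotientGroup.mk' M)) → Det K N) ∧
      (∀ (G : Type v) [Group G] (c : Set (Subgroup G)), c.Nonempty → DirectedOn (· ≤ ·) c →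
        ∀ [(sSup c).Normal], (∀ M ∈ c, ∃ _ : M.Normal, Det K M) → Det K (sSup c)) ∧
      (∀ (G : Type v) [Group G] (N : ℕ → Subgroup G) [∀ i, (N i).Normal], Antitone N →
        (∀ g, (∀ i, g ∈ N i) → g = 1) →
        (∀ i, Det K ((N i).map (QuotientGroup.mk' (N (i + 1))))) → Det K (N 0))) ∧
    (∀ (G : Type v) [Group G] (N : Subgroup G) [N.Normal], Det K N → Idem K (G ⧸ N) →
      Idem K G) ∧
    ((∀ (G : Type v) [Group G], TorsionFree (⊤ : Subgroup G) → Group.FG G →
        (∀ (L : Subgroup G) [L.Normal], Det K L →
          (∀ (g : G) (n : ℕ), 0 < n → g ^ n ∈ L → g ∈ L) → L = ⊥) → Idem K G) →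
      ∀ (G : Type v) [Group G], TorsionFree (⊤ : Subgroup G) → Idem K G) ∧
    (∀ (G : Type v) [Group G] (N : Subgroup G) [N.Normal],
      (∀ (M : Subgroup G) [M.Normal], M < N → ∃ (L : Subgroup G) (_ : L.Normal),
        M < L ∧ L ≤ N ∧ Det K (L.map (QuotientGroup.mk' M))) → Det K N) ∧
    (∀ (G : Type v) [Group G] (N : Subgroup G) [N.Normal],
      (∀ (M : Subgroup G) [M.Normal], M ≤ N → M ≠ ⊥ → ∃ (L : Subgroup G) (_ : L.Normal),
        L < M ∧ Det K (M.map (QuotientGroup.mk' L))) → Det K N) := by
  refine ⟨?_, ?_, ?_, ⟨?_, ?_, ?_⟩, ?_, ?_, ?_, ?_⟩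
  · intro G _ N _ h
    exact Pool.Agent.H26R2.Kap2.det_main_good N h
  · intro G _ N _ h
    exact Pool.Agent.H26R2.IdemLI.det_of_locInd N h
  · intro hK G _ N _ htf hN
    exact Pool.Agent.H26R2.Kap2.det_goodSeries N hN htf
  · intro G _ M N _ _ hMN hM hN
    exact Pool.Agent.H26R2.IdemLI.det_trans M N hMN hM hN
  · intro G _ c hne hdir _ hall
    exact Pool.Agent.H26R2.IdemLI.det_union c hne hdir hall
  · intro G _ N _ hanti hinf hN
    exact Pool.Agent.H26R2.IdemLI.det_chain N hanti hinf hN
  · intro G _ N _ hN hQ
    exact Pool.Agent.H26R2.IdemLI.triv_of_det N hN hQ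
  · intro h G _ htf
    refine Pool.Agent.H26R2.IdemLI.reduction' (K := K) (fun G _ htf hfg hL => ?_) G
      (fun g n hn hg => htf g trivial n hn hg)
    exact h G (fun x _ n hn hx => htf x n hn hx) hfg (fun L _ hL1 hL2 => hL L hL1 hL2)
  · intro G _ N _ h
    exact Pool.Agent.Q202.DetTrans.det_ascend N h
  · intro G _ N _ h
    exact Pool.Agent.Q202.DetTrans.det_descend N h

end Pool.Agent.Results.MP_1a2884_al.DetectingSubgroups
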