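import Pool.Agent.Q91.PP.Over
import Pool.Agent.Y84.PH.G

/-!
# Even cyclic cocycles on projective modules over group algebras of groups of piecewise projective
# homeomorphisms

Let `K` be a field of characteristic zero. If `K₀(K) → K₀(K[G])` is bijective, then all cyclic
cocycles of dimension `2 n ≥ 2` on `K[G]`, that is all cycles of dimension `2 n` in the sense of
Connes, vanish on the idempotent matrices over `K[G]`. We prove this for all cycles with values in
finitely generated modules over finitely generated rings, if every element `g ≠ 1` of every finitely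
generated subgroup `H` of `G` is detected by an action of `H` by piecewise projective homeomorphisms
of the line, or by a linear representation of `H` in characteristic zero which maps it to an element
of infinite order: for example for Thompson's group `F`, for Monod's non-amenable groups without
free subgroups, for the groups of Lodha and Moore, and for groups which are residually of this kind.
-/

set_option autoImplicit false

namespace Pool.Agent.Results.MP_1a2884_al.EvenCyclesProjective

universe u1 u2 u3 u4 u5 u6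

/-- `(Ω, δ, T)` is a cycle of dimension `N` with values in the vector space `M`: `Ω` is a graded
algebra with homogeneous components `𝒜 i`, `δ` is a differential of degree one, and `T` is a
closed graded trace which vanishes outside degree `N`. -/
structure IsCycle {K : Type u1} [Field K] {Ω : Type u4} [Ring Ω] [Algebra K Ω] {M : Type u5}
    [AddCommGroup M] [Module K M] (N : ℕ) (𝒜 : ℕ → Submodule K Ω) [GradedAlgebra 𝒜]
    (δ : Ω →ₗ[K] Ω) (T : Ω →ₗ[K] M) : Prop where
  deg : ∀ i, ∀ x ∈ 𝒜 i, δ x ∈ 𝒜 (i + 1)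
  sq : ∀ x, δ (δ x) = 0
  leibniz : ∀ i, ∀ x ∈ 𝒜 i, ∀ y, δ (x * y) = δ x * y + (-1) ^ i * (x * δ y)
  closed : ∀ x, T (δ x) = 0
  trace : ∀ i j, ∀ x ∈ 𝒜 i, ∀ y ∈ 𝒜 j, T (x * y) = T ((-1) ^ (i * j) * (y * x))
  dim : ∀ i, i ≠ N → ∀ x ∈ 𝒜 i, T x = 0

/-- `f` is piecewise projective: there are finitely many real matrices with nonzero determinant
such that `f` is given by one of the corresponding maps `z ↦ (α z + β) / (γ z + δ)` near `-∞` and
to the right of each point of the line. -/
def IsPiecewiseProjective (f : ℝ → ℝ) : Prop :=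
  ∃ S : Finset (Matrix (Fin 2) (Fin 2) ℝ), (∀ M ∈ S, M.det ≠ 0) ∧
    (∃ M ∈ S, ∃ b : ℝ, ∀ z < b, f z * (M 1 0 * z + M 1 1) = M 0 0 * z + M 0 1) ∧
    ∀ a : ℝ, ∃ M ∈ S, ∃ b > a, ∀ z, a < z → z < b →
      f z * (M 1 0 * z + M 1 1) = M 0 0 * z + M 0 1

/-- `g` is detected by an action of `H` by increasing piecewise projective homeomorphisms, or by a
linear representation in characteristic zero which maps it to an element of infinite order. -/
def Detected {H : Type u2} [Group H] (g : H) : Prop :=
  (∃ ρ : H →* (ℝ ≃o ℝ), (∀ x, IsPiecewiseProjective (ρ x)) ∧ ρ g ≠ 1) ∨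
  ∃ (K : Type u6) (_ : Field K) (_ : CharZero K) (N : ℕ) (φ : H →* GL (Fin N) K),
    ∀ E : ℕ, 0 < E → φ g ^ E ≠ 1

/-- The value of the cycle on the group elements `a`, `b₁`, …, `b_r`. -/
noncomputable def value {K : Type u1} [Field K] {G : Type u2} [Group G] {Ω : Type u4} [Ring Ω]
    [Algebra K Ω] {M : Type u5} [AddCommGroup M] [Module K M] (δ : Ω →ₗ[K] Ω) (T : Ω →ₗ[K] M)
    (ρ : MonoidAlgebra K G →ₐ[K] Ω) (a : G) (l : List G) : M :=
  T (ρ (MonoidAlgebra.single a 1) * (l.map fun b => δ (ρ (MonoidAlgebra.single b 1))).prod)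

/-- `K` is a field of characteristic zero, `G` a group in which the elements `≠ 1` of the finitely
generated subgroups are detected, `e` an idempotent matrix over `K[G]`, `H` the subgroup generated
by the supports of its entries, `(Ω, δ, T)` a cycle over `K[G]` of dimension `2 n ≥ 2` whose values
on `H` lie in the module generated by a finite set `F` over the subring generated by a finite set
`s`. Then `T (e (δ e) ^ (2 n)) = 0`. -/
theorem result (K : Type u1) [Field K] [CharZero K] (G : Type u2) [Group G]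
    (hG : ∀ H : Subgroup G, H.FG → ∀ g : H, g ≠ 1 → Detected.{u2, u6} g) (d : Type u3)
    [Fintype d] [DecidableEq d] (e : Matrix d d (MonoidAlgebra K G)) (he : e * e = e)
    (H : Subgroup G) (hH : H = Subgroup.closure {g | ∃ i j, (e i j).coeff g ≠ 0})
    (Ω : Type u4) [Ring Ω] [Algebra K Ω] (𝒜 : ℕ → Submodule K Ω) [GradedAlgebra 𝒜]
    (M : Type u5) [AddCommGroup M] [Module K M] (δ : Ω →ₗ[K] Ω) (T : Ω →ₗ[K] M)
    (n : ℕ) (hn : 1 ≤ n) (hT : IsCycle (2 * n) 𝒜 δ T)
    (ρ : MonoidAlgebra K G →ₐ[K] Ω) (hρ : ∀ a, ρ a ∈ 𝒜 0) (s : Finset K) (F : Finset M)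
    (hval : ∀ (a : H) (l : List H), l.length = 2 * n →
      value δ T ρ a (l.map Subtype.val) ∈
        Submodule.span (Algebra.adjoin ℤ (s : Set K)) (F : Set M)) :
    T ((e.map ρ) * ((e.map ρ).map δ) ^ (2 * n)).trace = 0 := by
  classical
  have hFG : H.FG := by
    refine ⟨Finset.univ.biUnion fun i => Finset.univ.biUnion fun j => (e i j).coeff.support, ?_⟩
    rw [hH]
    congr 1
    ext g
    simp [Finsupp.mem_support_iff]
  have : Group.FG H := (Group.fg_iff_subgroup_fg H).2 hFG
  have hmap : ∀ (a : H) (l : List H),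
      value δ T ρ a (l.map Subtype.val) = T (ρ (MonoidAlgebra.single (a : G) 1) *
        (l.map fun b : H => δ (ρ (MonoidAlgebra.single (b : G) 1))).prod) := by
    intro a l
    unfold value
    rw [List.map_map]
    rfl
  simp only [hmap] at hval
  have hdet : ∀ g : H, g ≠ 1 → Pool.Agent.Q91.PP.Detected.{u2, u6} g := fun g hg => hG H hFG g hg
  refine Pool.Agent.Y84.PH.cyc_field e he H
    (fun i j g hg => by rw [hH]; exact Subgroup.subset_closure ⟨i, j, hg⟩) hn
    ⟨hT.deg, hT.sq, hT.leibniz, hT.closed, hT.trace, hT.dim⟩ hρ s F hval ?_ ?_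
  · rintro g hg ⟨m, J, hm, hJ, hconj⟩
    exfalso
    obtain ⟨p, ⟨hp, hmp⟩, hb⟩ := ((Nat.infinite_setOfPred_prime.sdiff (Set.finite_Iic m)).sdiff
      (Pool.Agent.Q91.PP.bad_of_detected.{u2, u6} (hdet g hg))).nonempty
    apply hb
    refine ⟨hp, J, hJ, hconj p ?_⟩
    rw [Nat.Prime.coprime_iff_not_dvd hp]
    intro hd
    exact hmp (Nat.le_of_dvd (by omega) hd)
  · left
    refine Nat.infinite_setOfPred_prime.mono ?_
    intro p hp
    refine ⟨hp, fun x hx => ?_⟩
    by_contra hne
    rcases hdet x hne with ⟨ρ', -, h1⟩ | ⟨K', _, _, N, φ, h1⟩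
    · apply h1
      ext z
      apply Pool.Agent.Q91.PP.fix_of_pow (Nat.Prime.pos hp)
      rw [← map_pow, hx, map_one]
      rfl
    · apply h1 p (Nat.Prime.pos hp)
      rw [← map_pow, hx, map_one]

end Pool.Agent.Results.MP_1a2884_al.EvenCyclesProjective
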